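import Pool.Agent.Results.MP_a8fbd7_nt.CountsInWindows
import Pool.Agent.V1172.PW.Eng2

/-!
# Prime counts in Oppermann's intervals for all integers in shrinking residue classes

Let `A(n)`, `B(n)` be the numbers of primes in `[n² - n, n²]` and `[n², n² + n]`, and let `ρ ≥ 0` be such that for all
`δ, ε > 0` at most `O(X^{ρ + ε})` integers `n ≤ X` violate `|A(n) - n/(2 log n)| ≤ δ n/(2 log n)` or the same for `B(n)`
(`Rare ρ` of `CountsInWindows`; known for `ρ = 1/2`, by the method of Bazzanella, Primes between consecutive squares, Arch. Math.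
75 (2000)). Let `l` be a prime number and `s > 0`. We show:

For all `l`-adic integers `a` outside of a set of Hausdorff dimension at most `ρ / s` (`ℤ_l` has dimension one), for all `δ > 0`
and all large `T`, ALL integers `2 ≤ n ≤ T` with `|n - a|_l ≤ T^{-s}`, that is, in the residue class of `a` modulo the least power
`l^f ≥ T^s`, satisfy `|A(n) - n/(2 log n)| ≤ δ n/(2 log n)` and `|B(n) - n/(2 log n)| ≤ δ n/(2 log n)`.

So for every `s > ρ` and almost every `a` the asymptotics of the question hold for all of the about `T^{1 - s}` integers up to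
`T` in the class.
-/

set_option autoImplicit false

namespace Pool.Agent.Results.MP_a8fbd7_nt.CountsInResidueClasses

open CountsInWindows (A B M Near Rare)

/-- **Theorem.** Let `Rare ρ`, `ρ ≥ 0`, `l` a prime and `s > 0`. For all `a ∈ ℤ_l` outside of a set of dimension at most `ρ / s`,
all `δ > 0` and all large `T`, both counts are as expected up to a relative error `δ` for ALL `2 ≤ n ≤ T` with
`|n - a|_l ≤ T^{-s}`. -/
theorem result (ρ : ℝ) (hρ : 0 ≤ ρ) (hR : Rare ρ) (l : ℕ) [Fact l.Prime] (s : ℝ) (hs : 0 < s) :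
    ∃ Z : Set ℤ_[l], dimH Z ≤ ENNReal.ofReal (ρ / s) ∧ ∀ a : ℤ_[l], a ∉ Z → ∀ δ : ℝ, 0 < δ →
      ∃ T₀ : ℝ, ∀ T : ℝ, T₀ ≤ T → ∀ n : ℕ, 2 ≤ n → (n : ℝ) ≤ T → ‖(n : ℤ_[l]) - a‖ ≤ T ^ (-s) →
        |(A n : ℝ) - M n| ≤ δ * M n ∧ |(B n : ℝ) - M n| ≤ δ * M n := by
  obtain ⟨Z, h1, h2⟩ := Pool.Agent.V1172.PW.objs l (P := ℕ) (fun n => (n : ℤ)) (ι := ℕ)
    (fun i => {n : ℕ | 2 ≤ n ∧ ¬ Near (1 / ((i : ℝ) + 1)) n}) (s := ρ) hρ
    (fun i ε hε => by
      obtain ⟨C, hC⟩ := hR (1 / ((i : ℝ) + 1)) ε (by positivity) hε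
      refine ⟨C, fun X hX => ?_⟩
      have e : {t : ℕ | t ∈ {n : ℕ | 2 ≤ n ∧ ¬ Near (1 / ((i : ℝ) + 1)) n} ∧ |(((t : ℤ)) : ℝ)| ≤ X} =
          {n : ℕ | (2 ≤ n ∧ ¬ Near (1 / ((i : ℝ) + 1)) n) ∧ (n : ℝ) ≤ X} := by
        ext v
        refine and_congr_right fun _ => ?_
        rw [Int.cast_natCast, Nat.abs_cast]
      rw [e]
      exact ⟨(Set.finite_Iic ⌊X⌋₊).subset fun n hn => Nat.le_floor hn.2, hC X hX⟩) hs
  refine ⟨Z, h1, fun a ha δ hδ => ?_⟩
  obtain ⟨i, hi⟩ := exists_nat_one_div_lt hδ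
  obtain ⟨T₀, hT⟩ := h2 a ha i
  refine ⟨T₀, fun T hT1 n hn hnT hna => ?_⟩
  have h3 : Near (1 / ((i : ℝ) + 1)) n := by
    by_contra hcon
    refine hT T hT1 n ?_ ?_ ⟨hn, hcon⟩
    · rw [Int.cast_natCast, Nat.abs_cast]
      exact hnT
    · rw [Int.cast_natCast]
      exact hna
  have hM := (CountsInWindows.M_pos hn).le
  exact ⟨h3.1.trans (mul_le_mul_of_nonneg_right hi.le hM), h3.2.trans (mul_le_mul_of_nonneg_right hi.le hM)⟩

end Pool.Agent.Results.MP_a8fbd7_nt.CountsInResidueClasses
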