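import Mathlib
import Pool.Agent.Y854.GM.Win

/-!
# Prime counts in Oppermann's intervals for all integers in windows

Let `A(n)`, `B(n)` be the numbers of primes in `[n² - n, n²]` and `[n², n² + n]`. Let `1 ≤ u_0, u_1, …` be reals with
`∑ u_m^{-t} < ∞` for all `t > τ` (`τ = 0` for geometric sequences), `θ < 1`. Let `ρ ≥ 0` be such that for all `δ, ε > 0` at most
`O(X^{ρ + ε})` integers `n ≤ X` violate `|A(n) - n/(2 log n)| ≤ δ n/(2 log n)` or the same for `B(n)` (`Rare ρ`). We show: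

For all `a > 0` outside of a set of Hausdorff dimension at most `(ρ + τ) / (1 - θ)`, and for almost all `a > 0` if
`θ + τ < 1 - ρ`: `A(n) ~ n/(2 log n)` and `B(n) ~ n/(2 log n)` as `n → ∞` through ALL integers in the windows
`|n - a u_m| ≤ u_m^θ`.

`Rare ρ` is known for `ρ = 1/2`: Bazzanella (Primes between consecutive squares, Arch. Math. 75 (2000)) shows that all but
`O(N^{1/4 + ε})` of the intervals `[n², (n + 1)²]` in `[1, N]` contain the expected number of primes, and the method (zero density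
estimates and the fourth moment over zeros, for intervals of length `c √x`) is the same for both halves. So geometric windows
with every `θ < 1/2` are possible.
-/

set_option autoImplicit false

namespace Pool.Agent.Results.MP_a8fbd7_nt.CountsInWindows

open Filter MeasureTheory Topology

/-- `A(n) = #{p prime : n² - n ≤ p ≤ n²}` -/
def A (n : ℕ) : ℕ := ((Finset.Icc (n ^ 2 - n) (n ^ 2)).filter Nat.Prime).card

/-- `B(n) = #{p prime : n² ≤ p ≤ n² + n}` -/
def B (n : ℕ) : ℕ := ((Finset.Icc (n ^ 2) (n ^ 2 + n)).filter Nat.Prime).card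

/-- the main term `n/(2 log n)` -/
noncomputable def M (n : ℕ) : ℝ := n / (2 * Real.log n)

/-- both counts are as expected, up to a relative error `δ` -/
def Near (δ : ℝ) (n : ℕ) : Prop := |(A n : ℝ) - M n| ≤ δ * M n ∧ |(B n : ℝ) - M n| ≤ δ * M n

/-- at most `O(X^{ρ + ε})` exceptions up to `X`, for every `δ` -/
def Rare (ρ : ℝ) : Prop := ∀ δ ε : ℝ, 0 < δ → 0 < ε → ∃ C : ℝ, ∀ X : ℝ, 1 ≤ X →
  ({n : ℕ | (2 ≤ n ∧ ¬ Near δ n) ∧ (n : ℝ) ≤ X}.ncard : ℝ) ≤ C * X ^ (ρ + ε)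

/-- the integers in the windows around `a u_m` -/
def Windows (u : ℕ → ℝ) (a θ : ℝ) : Set ℕ := {n | ∃ m : ℕ, |(n : ℝ) - a * u m| ≤ u m ^ θ}

/-- both asymptotics along the windows -/
def Holds (u : ℕ → ℝ) (a θ : ℝ) : Prop :=
  Tendsto (fun n => (A n : ℝ) / M n) (atTop ⊓ 𝓟 (Windows u a θ)) (𝓝 1) ∧
  Tendsto (fun n => (B n : ℝ) / M n) (atTop ⊓ 𝓟 (Windows u a θ)) (𝓝 1)

theorem M_pos {n : ℕ} (hn : 2 ≤ n) : 0 < M n := by
  have h1 : (2 : ℝ) ≤ n := by exact_mod_cast hn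
  have h2 : 0 < Real.log n := Real.log_pos (by linarith)
  unfold M
  positivity

theorem ratio {x : ℕ} {n : ℕ} {δ : ℝ} (hn : 2 ≤ n) (h : |(x : ℝ) - M n| ≤ δ * M n) : |(x : ℝ) / M n - 1| ≤ δ := by
  have hM := M_pos hn
  have h1 : (x : ℝ) / M n - 1 = ((x : ℝ) - M n) / M n := by field_simp
  rw [h1, abs_div, abs_of_pos hM, div_le_iff₀ hM]
  exact h

/-- **Theorem.** Let `Rare ρ`, `ρ ≥ 0`, `1 ≤ u_m`, `∑_m u_m^{-t} < ∞` for all `t > τ`, `θ < 1`. The asymptotics of the question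
hold along all integers in the windows around `a u_m`: for all `a > 0` outside of a set of dimension at most
`(ρ + τ) / (1 - θ)`, and for almost all `a > 0` if `θ + τ < 1 - ρ`. -/
theorem result (ρ : ℝ) (hρ : 0 ≤ ρ) (hR : Rare ρ) (u : ℕ → ℝ) (τ θ : ℝ) (hu : ∀ m, 1 ≤ u m) (hτ : 0 ≤ τ)
    (hgrow : ∀ t : ℝ, τ < t → Summable fun m : ℕ => u m ^ (-t)) (hθ : θ < 1) :
    (∃ Z : Set ℝ, dimH Z ≤ ENNReal.ofReal ((ρ + τ) / (1 - θ)) ∧ ∀ a : ℝ, 0 < a → a ∉ Z → Holds u a θ) ∧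
    (θ + τ < 1 - ρ → ∀ᵐ a : ℝ, 0 < a → Holds u a θ) := by
  have h1 : ∃ Z : Set ℝ, dimH Z ≤ ENNReal.ofReal ((ρ + τ) / (1 - θ)) ∧ ∀ a : ℝ, 0 < a → a ∉ Z → Holds u a θ := by
    have hw : ∀ i : ℕ, ∃ Z : Set ℝ, dimH Z ≤ ENNReal.ofReal ((ρ + τ) / (1 - θ)) ∧
        ∀ a : ℝ, 0 < a → a ∉ Z → ∃ m₀ : ℕ, ∀ m : ℕ, m₀ ≤ m →
          ∀ n ∈ {n : ℕ | 2 ≤ n ∧ ¬ Near (1 / ((i : ℝ) + 1)) n}, u m ^ θ < |(n : ℝ) - a * u m| := by
      intro i
      refine Pool.Agent.Y854.GM.windows {n : ℕ | 2 ≤ n ∧ ¬ Near (1 / ((i : ℝ) + 1)) n} (fun n : ℕ => (n : ℝ)) hu hτ hgrow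
        hρ hθ fun ε hε => ?_
      obtain ⟨C, hC⟩ := hR (1 / ((i : ℝ) + 1)) ε (by positivity) hε
      exact ⟨C, fun X hX => ⟨(Set.finite_Iic ⌊X⌋₊).subset fun n hn => Nat.le_floor hn.2, hC X hX⟩⟩
    choose Z hZ1 hZ2 using hw
    refine ⟨⋃ i, Z i, ?_, fun a ha haZ => ?_⟩
    · rw [dimH_iUnion]
      exact iSup_le hZ1
    · have key : ∀ δ : ℝ, 0 < δ → ∀ᶠ n : ℕ in atTop ⊓ 𝓟 (Windows u a θ), 2 ≤ n ∧ Near δ n := by
        intro δ hδ
        obtain ⟨i, hi⟩ := exists_nat_one_div_lt hδ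
        obtain ⟨m₀, hm₀⟩ := hZ2 i a ha fun h => haZ (Set.mem_iUnion.2 ⟨i, h⟩)
        set Y : ℝ := ∑ m ∈ Finset.range m₀, (a * u m + u m ^ θ) with hY
        have hterm : ∀ m, 0 ≤ a * u m + u m ^ θ := fun m => by
          have := hu m
          positivity
        rw [Filter.eventually_inf_principal]
        filter_upwards [eventually_gt_atTop (max 2 ⌈Y⌉₊)] with n hn hW
        obtain ⟨m, hm⟩ := hW
        have hn2 : 2 ≤ n := (le_max_left _ _).trans hn.le
        refine ⟨hn2, ?_⟩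
        by_cases hmm : m < m₀
        · exfalso
          have h2 := Finset.single_le_sum (f := fun m => a * u m + u m ^ θ) (fun m _ => hterm m)
            (Finset.mem_range.2 hmm)
          have h3 : (n : ℝ) ≤ a * u m + u m ^ θ := by
            have := (abs_le.1 hm).2
            linarith
          have h4 : (n : ℝ) ≤ Y := h3.trans h2
          have h5 : Y < n := Nat.lt_of_ceil_lt ((le_max_right _ _).trans_lt hn)
          linarith
        · have h2 : Near (1 / ((i : ℝ) + 1)) n := by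
            by_contra hcon
            exact absurd hm (not_le.2 (hm₀ m (not_lt.1 hmm) n ⟨hn2, hcon⟩))
          have hM := (M_pos hn2).le
          exact ⟨h2.1.trans (mul_le_mul_of_nonneg_right hi.le hM), h2.2.trans (mul_le_mul_of_nonneg_right hi.le hM)⟩
      constructor
      · rw [Metric.tendsto_nhds]
        intro ε hε
        filter_upwards [key (ε / 2) (by positivity)] with n hn
        rw [Real.dist_eq]
        exact (ratio hn.1 hn.2.1).trans_lt (by linarith)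
      · rw [Metric.tendsto_nhds]
        intro ε hε
        filter_upwards [key (ε / 2) (by positivity)] with n hn
        rw [Real.dist_eq]
        exact (ratio hn.1 hn.2.2).trans_lt (by linarith)
  refine ⟨h1, fun hθτ => ?_⟩
  obtain ⟨Z, hZ1, hZ2⟩ := h1
  have hnull : volume Z = 0 := by
    rw [← hausdorffMeasure_real]
    refine hausdorffMeasure_of_dimH_lt (d := 1) (hZ1.trans_lt ?_)
    have g1 : (ρ + τ) / (1 - θ) < 1 := by
      rw [div_lt_one (by linarith)]
      linarith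
    simpa using (ENNReal.ofReal_lt_one).2 g1
  filter_upwards [compl_mem_ae_iff.2 hnull] with a ha ha0
  exact hZ2 a ha0 ha

end Pool.Agent.Results.MP_a8fbd7_nt.CountsInWindows
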