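import Pool.Agent.V11249.NP.Reg
import Pool.Agent.V11249.NP.Fam

/-!
# Almost primes in Oppermann intervals: regular windows

There are `r` and `c₁, c₂, K, κ > 0` such that in each of the intervals `(n ^ 2 - n, n ^ 2]`, `(n ^ 2, n ^ 2 + n]`, `n` large, at
least `κ n` of the integers `x` are regular: every window `(a, b]` around `x` of length between `K log X` and `n` contains
the right order of integers with at most `r` prime factors, all larger than `X ^ (1 / r)`; moreover, at all but boundedly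
many dyadic scales these integers have a constant density around `x`, up to an error `δ`. The same holds in all
intervals `(X, X + Y]` with `X ^ θ ≤ Y ≤ X`.
-/

set_option autoImplicit false

open Finset Filter Polynomial

namespace Pool.Agent.Results.MP_a8fbd7_nt.RegularWindows

/-- `m` has at most `r` prime factors (with multiplicity), all of them larger than `z` -/
def AlmostPrime (r : ℕ) (z : ℝ) (m : ℕ) : Prop :=
  m.primeFactorsList.length ≤ r ∧ ∀ p : ℕ, p.Prime → p ∣ m → z < p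

open Classical in
/-- the number of such `m` in `(a, b]`, all prime factors being larger than `X ^ (1 / r)` -/
noncomputable def cnt (r X a b : ℕ) : ℕ :=
  ((Ioc a b).filter (fun m => AlmostPrime r ((X : ℝ) ^ (1 / (r : ℝ))) m)).card

/-- all windows `(a, b]` around `x`, of length between `K log X` and `Y`, contain the right order of such `m` -/
def Regular (r : ℕ) (c₁ c₂ K : ℝ) (X Y x : ℕ) : Prop :=
  ∀ a b : ℕ, a ≤ x → x ≤ b → K * Real.log X ≤ (b : ℝ) - a → (b : ℝ) - a ≤ Y →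
    c₁ * ((b : ℝ) - a) / Real.log X ≤ (cnt r X a b : ℝ) ∧ (cnt r X a b : ℝ) ≤ c₂ * ((b : ℝ) - a) / Real.log X

/-- the density is constant on `[x - 2 ^ j, x + 2 ^ j]`, up to `δ` -/
def Constant (r : ℕ) (c₁ c₂ δ : ℝ) (X x j : ℕ) : Prop :=
  ∃ lam : ℝ, c₁ ≤ lam ∧ lam ≤ c₂ ∧ ∀ u v : ℕ, x ≤ u + 2 ^ j → u ≤ v → v ≤ x + 2 ^ j →
    |(cnt r X u v : ℝ) - lam * ((v : ℝ) - u) / Real.log X| ≤ δ * 2 ^ j / Real.log X

open Classical in
/-- the number of the scales `2 ^ j` between `log X` and `Y` at which the density is not constant -/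
noncomputable def badScales (r : ℕ) (c₁ c₂ δ : ℝ) (X Y x : ℕ) : ℕ :=
  ((range (Nat.log 2 Y + 1)).filter (fun j => Real.log X ≤ (2 : ℝ) ^ j ∧ ¬ Constant r c₁ c₂ δ X x j)).card

/-- the system -/
noncomputable def F : Fin 1 → ℤ[X] := fun _ => X

theorem sys : Pool.Agent.W123.RU.Poly.Sys F := by
  refine ⟨fun _ => irreducible_X, fun _ => ?_, fun _ => ?_, fun i j _ => Subsingleton.elim i j, fun p hp => ⟨1, fun _ h => ?_⟩⟩
  · show 0 < (X : ℤ[X]).natDegree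
    simp
  · show 0 < (X : ℤ[X]).leadingCoeff
    simp
  · have h0 : (p : ℤ) ∣ (X : ℤ[X]).eval ((1 : ℕ) : ℤ) := h
    rw [eval_X] at h0
    have h1 : p ∣ 1 := by exact_mod_cast h0
    exact hp.one_lt.ne' (Nat.dvd_one.1 h1)

theorem iff_almost (r : ℕ) (z : ℝ) (m : ℕ) : AlmostPrime r z m ↔ Pool.Agent.TH464.PW.Almost F r z m := by
  unfold AlmostPrime Pool.Agent.TH464.PW.Almost F
  rw [Fin.forall_fin_one, eval_X, Int.natAbs_natCast]
  simp only [Int.natCast_dvd_natCast]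

open Classical in
/-- **Regular windows in Oppermann intervals.** (1) For `0 < θ ≤ 1` there are `r` and `c₁, c₂, K, κ > 0` such that for
every `δ > 0` there is `B` such that for all large `X` and all `X ^ θ ≤ Y ≤ X`: at least `κ Y` of the `x` in
`(X, X + Y]` are regular and have at most `B` scales at which the density is not constant up to `δ`. (2) There are `r`
and `c₁, c₂, K, κ > 0` such that for every `δ > 0` there is `B` with: for all large `n` the same holds for `Y = n` and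
both `X = n ^ 2 - n` and `X = n ^ 2`. -/
theorem result :
    (∀ θ : ℝ, 0 < θ → θ ≤ 1 →
      ∃ (r : ℕ) (c₁ c₂ K κ : ℝ), 0 < c₁ ∧ 0 < c₂ ∧ 0 < K ∧ 0 < κ ∧ ∀ δ : ℝ, 0 < δ → ∃ B : ℕ,
        ∀ᶠ X : ℕ in atTop, ∀ Y : ℕ, (X : ℝ) ^ θ ≤ Y → Y ≤ X →
          κ * Y ≤ (((Ioc X (X + Y)).filter (fun x =>
            Regular r c₁ c₂ K X Y x ∧ badScales r c₁ c₂ δ X Y x ≤ B)).card : ℝ)) ∧
    ∃ (r : ℕ) (c₁ c₂ K κ : ℝ), 0 < c₁ ∧ 0 < c₂ ∧ 0 < K ∧ 0 < κ ∧ ∀ δ : ℝ, 0 < δ → ∃ B : ℕ,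
      ∀ᶠ n : ℕ in atTop, ∀ X : ℕ, (X = n ^ 2 - n ∨ X = n ^ 2) →
        κ * n ≤ (((Ioc X (X + n)).filter (fun x =>
          Regular r c₁ c₂ K X n x ∧ badScales r c₁ c₂ δ X n x ≤ B)).card : ℝ) := by
  have main : ∀ θ : ℝ, 0 < θ → θ ≤ 1 →
      ∃ (r : ℕ) (c₁ c₂ K κ : ℝ), 0 < c₁ ∧ 0 < c₂ ∧ 0 < K ∧ 0 < κ ∧ ∀ δ : ℝ, 0 < δ → ∃ B : ℕ,
        ∀ᶠ X : ℕ in atTop, ∀ Y : ℕ, (X : ℝ) ^ θ ≤ Y → Y ≤ X →
          κ * Y ≤ (((Ioc X (X + Y)).filter (fun x =>
            Regular r c₁ c₂ K X Y x ∧ badScales r c₁ c₂ δ X Y x ≤ B)).card : ℝ) := by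
    intro θ hθ hθ1
    have h := Pool.Agent.V11249.NP.reg_win (g := 1) (by norm_num) F sys AlmostPrime iff_almost θ hθ hθ1
    simp only [pow_one] at h
    exact h
  refine ⟨main, ?_⟩
  obtain ⟨r, c₁, c₂, K, κ, h1, h2, h3, h4, h⟩ := main (1 / 2) (by norm_num) (by norm_num)
  refine ⟨r, c₁, c₂, K, κ, h1, h2, h3, h4, fun δ hδ => ?_⟩
  obtain ⟨B, hB⟩ := h δ hδ
  obtain ⟨X₀, hX₀⟩ := eventually_atTop.1 hB
  refine ⟨B, eventually_atTop.2 ⟨max X₀ 2, fun n hn X hX => ?_⟩⟩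
  have hn2 : 2 ≤ n := (le_max_right _ _).trans hn
  have hnX : X₀ ≤ n := (le_max_left _ _).trans hn
  have hsq : n ^ 2 = n * n := by ring
  have h2n : 2 * n ≤ n * n := Nat.mul_le_mul_right _ hn2
  have hXn : n ≤ X ∧ X ≤ n ^ 2 := by
    rcases hX with rfl | rfl <;> omega
  refine hX₀ X (hnX.trans hXn.1) n ?_ hXn.1
  rw [← Real.sqrt_eq_rpow]
  refine (Real.sqrt_le_sqrt (show (X : ℝ) ≤ (n : ℝ) ^ 2 by exact_mod_cast hXn.2)).trans ?_
  rw [Real.sqrt_sq (Nat.cast_nonneg n)]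

end Pool.Agent.Results.MP_a8fbd7_nt.RegularWindows
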